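import Pool.Agent.Work.MP_dcf6a6_c1.Interface
import Pool.Agent.Work.MP_dcf6a6_tv_helper33.PHI

/-! Block PHIG: the homomorphism to `ℂ[X_0, X_1]` defined by a polynomial solution. -/

open CategoryTheory AlgebraicGeometry Polynomial Topology

namespace Pool.C1.helper29

noncomputable section

theorem stmt_PHIG : Stmt_PHIG := by
  intro J K B _ _ _ _ _ _ D R _ _ π hs hker w δ y N τ f g hN hy hbal hτ hrel hcop
  classical
  have hH : Pool.TVar.Stmt_HOMG := Pool.TVar.helper33.stmt_HOMG
  set F : J ⊕ K → MvPolynomial (Fin 2) ℂ := fun v => (τ v).homogenize (N * w v) with hF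
  have hFmem : ∀ v, F v ∈ Pool.TVar.lineGr (N * w v) := fun v => (hH.1 (τ v) _ (hτ v).1.le).1
  have hF1 : ∀ v t, MvPolynomial.eval ![t, 1] (F v) = (τ v).eval t :=
    fun v => (hH.1 (τ v) _ (hτ v).1.le).2.1
  have hF0 : ∀ v t, MvPolynomial.eval ![t, 0] (F v) = y v * t ^ (N * w v) := by
    intro v t
    rw [(hH.1 (τ v) _ (hτ v).1.le).2.2 t, ← (hτ v).2, Polynomial.leadingCoeff, (hτ v).1]
  have hmono : ∀ b, MvPolynomial.aeval F (D.mono K b) ∈ Pool.TVar.lineGr (N * δ) := by
    intro b
    unfold BData.mono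
    rw [map_prod, ← hbal b, Finset.mul_sum]
    refine MvPolynomial.IsHomogeneous.prod _ _ _ fun j _ => ?_
    rw [map_pow, MvPolynomial.aeval_X]
    have h1 : (F (Sum.inl j)).IsHomogeneous (N * w (Sum.inl j)) := hFmem (Sum.inl j)
    have h2 := h1.pow (D.l j)
    have h3 : N * w (Sum.inl j) * D.l j = N * (D.l j * w (Sum.inl j)) := by ring
    rwa [h3] at h2
  have hmono1 : ∀ b t, MvPolynomial.eval ![t, 1] (MvPolynomial.aeval F (D.mono K b))
      = D.al b * f.eval t + D.be b * g.eval t := by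
    intro b t
    have h1 := congrArg (fun f : Polynomial ℂ => f.eval t) (hrel b)
    unfold BData.uu at h1
    simp only [Polynomial.eval_prod, Polynomial.eval_pow, Polynomial.eval_add,
      Polynomial.eval_mul, Polynomial.eval_C] at h1
    rw [← h1]
    unfold BData.mono
    rw [map_prod, map_prod]
    simp only [map_pow, MvPolynomial.aeval_X, hF1]
  have hkill : ∀ b₀ b₁ b₂, MvPolynomial.aeval F (D.rel K b₀ b₁ b₂) = 0 := by
    intro b₀ b₁ b₂
    apply hH.2 _ _ (N * δ)
    · unfold BData.rel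
      rw [map_add, map_add, map_mul, map_mul, map_mul]
      have hC : ∀ (c : ℂ) (p : MvPolynomial (Fin 2) ℂ), p ∈ Pool.TVar.lineGr (N * δ) →
          MvPolynomial.aeval F (MvPolynomial.C c) * p ∈ Pool.TVar.lineGr (N * δ) := by
        intro c p hp
        rw [MvPolynomial.algHom_C, ← Algebra.smul_def]
        exact Submodule.smul_mem _ _ hp
      exact Submodule.add_mem _ (Submodule.add_mem _ (hC _ _ (hmono b₀)) (hC _ _ (hmono b₁)))
        (hC _ _ (hmono b₂))
    · exact MvPolynomial.isHomogeneous_zero _ _ _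
    · intro t
      unfold BData.rel
      simp only [map_add, map_mul, hmono1, MvPolynomial.algHom_C, map_zero]
      have hC : ∀ c : ℂ, MvPolynomial.eval ![t, 1]
          (algebraMap ℂ (MvPolynomial (Fin 2) ℂ) c) = c := by
        intro c
        rw [MvPolynomial.algebraMap_eq, MvPolynomial.eval_C]
      simp only [hC]
      unfold BData.det
      ring
  have hker' : RingHom.ker π.toRingHom ≤
      RingHom.ker (MvPolynomial.aeval F : MvPolynomial (J ⊕ K) ℂ →ₐ[ℂ] _).toRingHom := by
    have h1 : RingHom.ker π.toRingHom = Ideal.span {r | ∃ b₀ b₁ b₂, r = D.rel K b₀ b₁ b₂} := hker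
    rw [h1, Ideal.span_le]
    rintro _ ⟨b₀, b₁, b₂, rfl⟩
    exact hkill b₀ b₁ b₂
  set φ := AlgHom.liftOfSurjective π hs (MvPolynomial.aeval F) hker' with hφ
  have hφX : ∀ v, φ (π (MvPolynomial.X v)) = F v := by
    intro v
    rw [hφ, AlgHom.liftOfSurjective_apply, MvPolynomial.aeval_X]
  refine ⟨φ, ?_, ?_, ?_, ?_⟩
  · intro v
    rw [hφX]; exact hFmem v
  · intro v t
    rw [hφX]; exact hF1 v t
  · intro v t
    rw [hφX]; exact hF0 v t
  · intro q hq hX v v' hvv' h1
    rw [hφX] at h1 ⊢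
    refine Pool.TVar.helper33.coprime_homog (τ v) (τ v') _ _ (hτ v).1 (hτ v').1 ?_
      (hcop v v' hvv') q hq hX h1
    intro h0
    apply hy v
    rw [← (hτ v).2, h0, Polynomial.leadingCoeff_zero]

end

end Pool.C1.helper29
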